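import Mathlib

set_option autoImplicit false

namespace Pool.Agent.Results.MP_ef395a_gt.DominatingImage

open Set

/-- `𝒰` is a large open cover of `Z`: a family of open sets, not containing `Z` itself, such that
every point of `Z` lies in infinitely many members of `𝒰`. -/
def LargeCover (Z : Type*) [TopologicalSpace Z] (𝒰 : Set (Set Z)) : Prop :=
  (∀ u ∈ 𝒰, IsOpen u) ∧ (Set.univ : Set Z) ∉ 𝒰 ∧ ∀ z : Z, {u ∈ 𝒰 | z ∈ u}.Infinite

/-- `Split(Λ, Λ)`: every large open cover is the union of two disjoint subfamilies both of which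
contain a large open cover. -/
def SplitLL (Z : Type*) [TopologicalSpace Z] : Prop :=
  ∀ 𝒰 : Set (Set Z), LargeCover Z 𝒰 → ∃ 𝒱 𝒲 : Set (Set Z), Disjoint 𝒱 𝒲 ∧ 𝒱 ∪ 𝒲 = 𝒰 ∧
    (∃ 𝒱' ⊆ 𝒱, LargeCover Z 𝒱') ∧ (∃ 𝒲' ⊆ 𝒲, LargeCover Z 𝒲')

/-- `D` is a dominating family in `ω^ω`. -/
def Dominating (D : Set (ℕ → ℕ)) : Prop :=
  ∀ h : ℕ → ℕ, ∃ y ∈ D, ∃ n₀, ∀ n, n₀ ≤ n → h n ≤ y n

/-- endpoints of the intervals attached to `y` -/
def ep (y : ℕ → ℕ) : ℕ → ℕ
  | 0 => 0
  | k + 1 => ep y k + 2 + y (ep y k)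

theorem ep_lt (y : ℕ → ℕ) (k : ℕ) : ep y k < ep y (k + 1) := by
  simp only [ep]; omega

theorem ep_mono (y : ℕ → ℕ) : StrictMono (ep y) := strictMono_nat_of_lt_succ (ep_lt y)

theorem ep_cont (k : ℕ) : Continuous (fun y : ℕ → ℕ => ep y k) := by
  induction k with
  | zero => simp only [ep]; exact continuous_const
  | succ k ih =>
    rw [continuous_discrete_rng]
    intro b
    rw [isOpen_iff_forall_mem_open]
    intro y hy
    refine ⟨{z | ep z k = ep y k} ∩ {z | z (ep y k) = y (ep y k)}, ?_, ?_, ?_⟩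
    · rintro z ⟨h1, h2⟩
      simp only [mem_preimage, mem_singleton_iff, ep] at hy ⊢
      rw [mem_ofPred_eq] at h1 h2
      rw [h1, h2]; exact hy
    · refine IsOpen.inter ?_ ?_
      · exact (isOpen_discrete {ep y k}).preimage ih
      · have hc : Continuous (fun z : ℕ → ℕ => z (ep y k)) := continuous_apply _
        exact (isOpen_discrete {y (ep y k)}).preimage hc
    · exact ⟨rfl, rfl⟩

/-- the members of the cover -/
def UU {Y : Type*} (φ : Y → ℕ → ℕ) (n : ℕ) : Set ((ℕ → Bool) × Y) :=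
  {p | p.1 n = true ∨ ∃ k, ep (φ p.2) k = n ∧ ∀ j, n ≤ j → j < ep (φ p.2) (k + 1) → p.1 j = false}

theorem UU_open {Y : Type*} [TopologicalSpace Y] {φ : Y → ℕ → ℕ} (hφ : Continuous φ) (n : ℕ) :
    IsOpen (UU φ n) := by
  rw [isOpen_iff_forall_mem_open]
  rintro ⟨x, y⟩ hp
  rcases hp with h | ⟨k, hk, hj⟩
  · refine ⟨{p | p.1 n = true}, fun p hp => Or.inl hp, ?_, h⟩
    have hc : Continuous (fun p : (ℕ → Bool) × Y => p.1 n) :=
      (continuous_apply n).comp continuous_fst
    exact (isOpen_discrete {true}).preimage hc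
  · refine ⟨({p | ep (φ p.2) k = n} ∩ {p | ep (φ p.2) (k + 1) = ep (φ y) (k + 1)}) ∩
      ⋂ j ∈ Finset.range (ep (φ y) (k + 1)), {p | n ≤ j → p.1 j = false}, ?_, ?_, ?_⟩
    · rintro p ⟨⟨h1, h2⟩, h3⟩
      refine Or.inr ⟨k, h1, fun j hj1 hj2 => ?_⟩
      rw [mem_ofPred_eq] at h2
      rw [h2] at hj2
      simp only [mem_iInter] at h3
      exact h3 j (Finset.mem_range.mpr hj2) hj1
    · refine (IsOpen.inter ?_ ?_).inter ?_
      · exact (isOpen_discrete {n}).preimage (((ep_cont k).comp hφ).comp continuous_snd)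
      · exact (isOpen_discrete {ep (φ y) (k + 1)}).preimage
          (((ep_cont (k + 1)).comp hφ).comp continuous_snd)
      · refine isOpen_biInter_finset (fun j _ => ?_)
        by_cases hnj : n ≤ j
        · have : {p : (ℕ → Bool) × Y | n ≤ j → p.1 j = false} = {p | p.1 j = false} := by
            ext p; exact ⟨fun h => h hnj, fun h _ => h⟩
          rw [this]
          have hc : Continuous (fun p : (ℕ → Bool) × Y => p.1 j) :=
            (continuous_apply j).comp continuous_fst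
          exact (isOpen_discrete {false}).preimage hc
        · have : {p : (ℕ → Bool) × Y | n ≤ j → p.1 j = false} = univ := by
            ext p; exact ⟨fun _ => trivial, fun _ h => absurd h hnj⟩
          rw [this]; exact isOpen_univ
    · refine ⟨⟨hk, rfl⟩, ?_⟩
      simp only [mem_iInter]
      intro j hj1 hj2
      exact hj j hj2 (Finset.mem_range.mp hj1)

/-- If `Y` has a continuous image in `ω^ω` which is a dominating family, then the product
`2^ω × Y` (with the compact factor `2^ω`) does not satisfy `Split(Λ, Λ)`. -/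
theorem result (Y : Type*) [TopologicalSpace Y] (φ : Y → ℕ → ℕ) (hφ : Continuous φ)
    (hdom : Dominating (Set.range φ)) : ¬ SplitLL ((ℕ → Bool) × Y) := by
  classical
  intro hS
  obtain ⟨_, ⟨y0, rfl⟩, -⟩ := hdom (fun _ => 0)
  -- the test point missing index m
  have hmiss : ∀ m : ℕ, ((fun j => decide (j ≠ m), y0) : (ℕ → Bool) × Y) ∉ UU φ m := by
    intro m h
    rcases h with h | ⟨k, hk, hj⟩
    · simp at h
    · have hk' : ep (φ y0) k = m := hk
      have h1 : m + 1 < ep (φ y0) (k + 1) := by simp only [ep]; rw [hk']; omega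
      have := hj (m + 1) (by omega) h1
      simp at this
  have hin : ∀ m n : ℕ, n ≠ m → ((fun j => decide (j ≠ m), y0) : (ℕ → Bool) × Y) ∈ UU φ n := by
    intro m n hnm
    exact Or.inl (by simpa using hnm)
  have hinj : Function.Injective (UU φ) := by
    intro m n hmn
    by_contra hne
    have h1 := hin m n (fun h => hne h.symm)
    rw [← hmn] at h1
    exact hmiss m h1
  have hlarge : LargeCover ((ℕ → Bool) × Y) (range (UU φ)) := by
    refine ⟨?_, ?_, ?_⟩
    · rintro _ ⟨n, rfl⟩; exact UU_open hφ n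
    · rintro ⟨n, hn⟩
      apply hmiss n
      rw [hn]; trivial
    · rintro ⟨x, y⟩
      have hidx : {n | (x, y) ∈ UU φ n}.Infinite := by
        rw [Set.infinite_iff_exists_gt]
        intro a
        -- look at the interval number a + 1
        by_cases h : ∃ j, ep (φ y) (a + 1) ≤ j ∧ j < ep (φ y) (a + 2) ∧ x j = true
        · obtain ⟨j, h1, h2, h3⟩ := h
          refine ⟨j, Or.inl h3, ?_⟩
          have := (ep_mono (φ y)).id_le (a + 1)
          simp only [id] at this
          omega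
        · push Not at h
          refine ⟨ep (φ y) (a + 1), Or.inr ⟨a + 1, rfl, fun j h1 h2 => ?_⟩, ?_⟩
          · have := h j h1 h2
            simpa using this
          · have := (ep_mono (φ y)).id_le (a + 1)
            simp only [id] at this
            omega
      have : {u ∈ range (UU φ) | (x, y) ∈ u} = UU φ '' {n | (x, y) ∈ UU φ n} := by
        ext u; constructor
        · rintro ⟨⟨n, rfl⟩, h⟩; exact ⟨n, h, rfl⟩
        · rintro ⟨n, h, rfl⟩; exact ⟨⟨n, rfl⟩, h⟩
      rw [this]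
      exact hidx.image hinj.injOn
  obtain ⟨𝒱, 𝒲, hdisj, hun, ⟨𝒱', h𝒱', hV⟩, ⟨𝒲', h𝒲', hW⟩⟩ := hS _ hlarge
  set S : Set ℕ := {n | UU φ n ∈ 𝒱} with hSdef
  have hVS : ∀ u ∈ 𝒱, ∃ n ∈ S, UU φ n = u := by
    intro u hu
    have : u ∈ range (UU φ) := by rw [← hun]; exact Or.inl hu
    obtain ⟨n, rfl⟩ := this
    exact ⟨n, hu, rfl⟩
  have hSinf : S.Infinite := by
    have h1 := hV.2.2 ((fun _ => true), y0)
    intro hfin
    apply h1
    refine (hfin.image (UU φ)).subset ?_
    rintro u ⟨hu, _⟩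
    obtain ⟨n, hn, rfl⟩ := hVS u (h𝒱' hu)
    exact ⟨n, hn, rfl⟩
  have hnext : ∀ n, ∃ j, n + j ∈ S := by
    intro n
    obtain ⟨m, hm, hnm⟩ := hSinf.exists_gt n
    exact ⟨m - n, by rw [Nat.add_sub_cancel' hnm.le]; exact hm⟩
  choose nx hnx using hnext
  obtain ⟨_, ⟨y, rfl⟩, n₀, hy⟩ := hdom nx
  apply hW.2.2 ((fun j => decide (j ∈ S)), y)
  refine (((Set.finite_Iio (n₀ + 1)).image (ep (φ y))).image (UU φ)).subset ?_
  rintro u ⟨hu, hmem⟩
  have huW : u ∈ 𝒲 := h𝒲' hu
  have : u ∈ range (UU φ) := by rw [← hun]; exact Or.inr huW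
  obtain ⟨n, rfl⟩ := this
  have hnS : n ∉ S := fun h => Set.disjoint_left.mp hdisj h huW
  rcases hmem with h | ⟨k, hk, hj⟩
  · exact absurd (by simpa using h) hnS
  · refine ⟨n, ⟨k, ?_, hk⟩, rfl⟩
    rw [mem_Iio]
    by_contra hlt
    push Not at hlt
    have h1 := (ep_mono (φ y)).id_le k
    simp only [id] at h1
    have hk' : ep (φ y) k = n := hk
    have h2 : nx n ≤ φ y n := hy n (by omega)
    have h3 : n + nx n < ep (φ y) (k + 1) := by
      simp only [ep]; rw [hk']; omega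
    have h4 := hj (n + nx n) (by omega) h3
    simp at h4
    exact h4 (hnx n)

end Pool.Agent.Results.MP_ef395a_gt.DominatingImage
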